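import Pool.Agent.Y981.All
import Pool.Agent.TH546.HP.Wid

/-!
# Half-plane self-avoiding walks on `ℤ²`: with overwhelming probability all pieces, at all scales from
`K (log n) ^ 2` on, are sub-ballistic with an almost power law
-/

set_option autoImplicit false

namespace Pool.Agent.Results.MP_df1d0b_pr.AllScales

/-- points of the square lattice -/
abbrev Pt := Fin 2 → ℤ

/-- `w` is an `n`-step self-avoiding walk on `ℤ²` which starts at the origin and stays in the closed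
upper half-plane. -/
def IsHalf (n : ℕ) (w : Fin (n + 1) → Pt) : Prop :=
  w 0 = 0 ∧ (∀ i : Fin n, ∑ k, |w i.succ k - w i.castSucc k| = 1) ∧ Function.Injective w ∧
    ∀ i, 0 ≤ w i 1

/-- Euclidean distance of two points of `ℤ²`. -/
noncomputable def dist2 (x y : Pt) : ℝ :=
  Real.sqrt (∑ k, ((x k : ℝ) - (y k : ℝ)) ^ 2)

/-- The diameter `max_{i,j} |w_i - w_j|`. -/
noncomputable def diam {n : ℕ} (w : Fin (n + 1) → Pt) : ℝ :=
  ⨆ p : Fin (n + 1) × Fin (n + 1), dist2 (w p.1) (w p.2)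

/-- The uniform probability of the event `E` over the `n`-step half-plane walks. -/
noncomputable def prob (n : ℕ) (E : (Fin (n + 1) → Pt) → Prop) : ℝ :=
  (Nat.card {w : Fin (n + 1) → Pt // IsHalf n w ∧ E w} : ℝ) /
    (Nat.card {w : Fin (n + 1) → Pt // IsHalf n w} : ℝ)

/-- The segment of `m` steps of `w` started at time `i`, translated to the origin:
`k ↦ w (i + k) - w i` (used only when `i + m ≤ n`). -/
def seg {n : ℕ} (w : Fin (n + 1) → Pt) (i m : ℕ) : Fin (m + 1) → Pt :=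
  fun k => w (Fin.ofNat (n + 1) (i + k)) - w (Fin.ofNat (n + 1) i)

/-- The radius at scale `x` with cut-off `T`: `C x (x / T)^(-c / log log (x / T))`. -/
noncomputable def rad (c C T x : ℝ) : ℝ :=
  C * x * (x / T) ^ (-(c / Real.log (Real.log (x / T))))

/-- The walk is regular at all scales `≥ 16 T`:
(1) every segment of `m ≥ 16 T` steps has diameter at least `√(m+1) - 1` and less than
`rad c C T m`;
(2) for every `m` with `16 T ≤ m ≤ n` the trace is covered by `⌊n/m⌋ + 1` discs of radius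
`rad c C T m`. -/
def Regular (c C T : ℝ) (n : ℕ) (w : Fin (n + 1) → Pt) : Prop :=
  (∀ i m : ℕ, i + m ≤ n → 16 * T ≤ m →
    Real.sqrt (m + 1) - 1 ≤ diam (seg w i m) ∧ diam (seg w i m) < rad c C T m) ∧
  (∀ m : ℕ, 16 * T ≤ m → m ≤ n → ∃ S : Finset Pt, S.card ≤ n / m + 1 ∧
    ∀ i : Fin (n + 1), ∃ x ∈ S, dist2 (w i) x < rad c C T m)

open Pool.Agent.TH546.HP Pool.Agent.TH546.SAW Pool.Agent.W840.CT in
theorem half_card (n : ℕ) : Nat.card {w : Fin (n + 1) → Pt // IsHalf n w} = (HW n).card := by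
  have h1 : Nat.card {ω : Fin (n + 1) → ℤ × ℤ // ω ∈ HW n} = (HW n).card := by
    rw [Nat.card_eq_fintype_card, Fintype.card_coe]
  rw [← h1]
  refine Nat.card_congr (Equiv.subtypeEquiv
    (Equiv.arrowCongr (Equiv.refl (Fin (n + 1))) (finTwoArrowEquiv ℤ)) fun w => ?_)
  rw [mem_HW]
  have h2 := Pool.Agent.H122R3.MS.saw_iff n w
  constructor
  · rintro ⟨a, b, c, d⟩
    exact ⟨h2.1 ⟨a, b, c⟩, d⟩
  · rintro ⟨a, d⟩
    obtain ⟨a1, a2, a3⟩ := h2.2 a
    exact ⟨a1, a2, a3, d⟩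

open Pool.Agent.TH546.HP Pool.Agent.TH546.SAW Pool.Agent.W840.CT in
theorem ratio : ∃ K : ℝ, 0 ≤ K ∧ ∀ n : ℕ, 2 ≤ n →
    0 < (Nat.card {w : Fin (n + 1) → Pt // IsHalf n w} : ℝ) ∧
    (Pool.Agent.H122R3.MS.cS n : ℝ) ≤ Real.exp (K * Real.log n ^ 2) *
      Nat.card {w : Fin (n + 1) → Pt // IsHalf n w} := by
  obtain ⟨K, hK, h⟩ := big_HW
  refine ⟨K, hK, fun n hn => ?_⟩
  have hB := h n hn
  rw [half_card]
  refine ⟨hB.pos, ?_⟩
  have e : (Pool.Agent.H122R3.MS.cS n : ℝ) = cn n := by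
    rw [Pool.Agent.H122R3.MS.cS_eq, cn_eq, H981.cr'_eq]
  rw [e]
  exact hB.le

/-- **Theorem.** There are `c, C, K > 0` such that for every `n ≥ 16` and every real
`T ≥ K (log n)^2` the uniform `n`-step self-avoiding walk in the closed upper half-plane fails to be
regular at all scales `≥ 16 T` with probability at most `C exp (-T / 2)`. -/
theorem result : ∃ c C K : ℝ, 0 < c ∧ 0 < C ∧ 0 < K ∧ ∀ n : ℕ, 16 ≤ n → ∀ T : ℝ,
    K * Real.log n ^ 2 ≤ T →
    prob n (fun w => ¬ Regular c C T n w) ≤ C * Real.exp (-T / 2) := by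
  obtain ⟨c, C, hc, hc1, hC, h⟩ := Pool.Agent.Y981.All.all_seg
  obtain ⟨K, hK, hr⟩ := ratio
  refine ⟨c, C, 1 + 2 * K, hc, by linarith, by linarith, fun n hn T hT => ?_⟩
  have h1 := Pool.Agent.H122R3.MS.two_le_log hn
  have h2 : 0 < Real.log n ^ 2 := by positivity
  have hT1 : Real.log n ^ 2 ≤ T := by nlinarith
  have hT0 : 0 < T := by linarith
  have h3 := h n hn T hT1
  obtain ⟨hpos, hle⟩ := hr n (by omega)
  have hcS := Pool.Agent.H122R3.MS.cS_pos n
  have hfin := Pool.Agent.H122R3.MS.hfin n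
  have h4 : (Nat.card {w : Fin (n + 1) → Pt // IsHalf n w ∧ ¬ Regular c C T n w} : ℝ) ≤
      Nat.card {w : Fin (n + 1) → Pt // Pool.Agent.H122R3.MS.IsSAW n w ∧
        ¬ Pool.Agent.W387.MS2.AllSeg c C T n w} := by
    have hf2 : Finite {w : Fin (n + 1) → Pt // Pool.Agent.H122R3.MS.IsSAW n w ∧
        ¬ Pool.Agent.W387.MS2.AllSeg c C T n w} :=
      Finite.of_injective (fun w => (⟨w.1, w.2.1⟩ : {w : Fin (n + 1) → Pt //
        Pool.Agent.H122R3.MS.IsSAW n w})) (fun w w' hww => by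
          have := congrArg Subtype.val hww
          exact Subtype.ext this)
    have h5 : Nat.card {w : Fin (n + 1) → Pt // IsHalf n w ∧ ¬ Regular c C T n w} ≤
        Nat.card {w : Fin (n + 1) → Pt // Pool.Agent.H122R3.MS.IsSAW n w ∧
        ¬ Pool.Agent.W387.MS2.AllSeg c C T n w} := by
      refine Nat.card_le_card_of_injective (fun w => ⟨w.1, ?_⟩) ?_
      · obtain ⟨w, ⟨a, b, d, e⟩, hreg⟩ := w
        refine ⟨⟨a, b, d⟩, fun hseg => hreg ⟨fun i m him hm => ⟨?_, hseg i m him hm⟩,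
          fun m hm hmn => ?_⟩⟩
        · exact Pool.Agent.H122R3.MS.sqrt_le_diam
            (Pool.Agent.H122R3.MS.seg_saw ⟨a, b, d⟩ him).2.2
        · refine Pool.Agent.W387.MS2.AllSeg.cover hseg ?_ hm hmn
          have h3 : (0 : ℝ) < m := by linarith
          exact_mod_cast h3
      · intro w w' hww
        have := congrArg Subtype.val hww
        exact Subtype.ext this
    exact_mod_cast h5
  unfold prob
  rw [div_le_iff₀ hpos]
  refine h4.trans ?_
  have h5 : (Nat.card {w : Fin (n + 1) → Pt // Pool.Agent.H122R3.MS.IsSAW n w ∧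
        ¬ Pool.Agent.W387.MS2.AllSeg c C T n w} : ℝ) ≤
      C * Real.exp (-T) * Pool.Agent.H122R3.MS.cS n := (div_le_iff₀ hcS).1 h3
  refine h5.trans ?_
  calc C * Real.exp (-T) * Pool.Agent.H122R3.MS.cS n
      ≤ C * Real.exp (-T) * (Real.exp (K * Real.log n ^ 2) *
          Nat.card {w : Fin (n + 1) → Pt // IsHalf n w}) := by gcongr
    _ = C * Real.exp (-T + K * Real.log n ^ 2) *
          Nat.card {w : Fin (n + 1) → Pt // IsHalf n w} := by
        rw [Real.exp_add]
        ring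
    _ ≤ _ := by
        gcongr
        nlinarith

end Pool.Agent.Results.MP_df1d0b_pr.AllScales
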