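import Pool.Agent.L0h89.BV.Inf
import Pool.Agent.N941.HS.Inf

/-!
# Visits of the half-plane self-avoiding walk on the square grid to the boundary and to the strips
-/

set_option autoImplicit false

namespace Pool.Agent.Results.MP_df1d0b_pr.BoundaryVisitsSquare

open Filter Topology MeasureTheory

/-- The square lattice `ℤ²` in the plane. -/
def Z2 : Set ℂ := {z | ∃ a b : ℤ, z = a + b * Complex.I}

/-- The `n`-step self-avoiding walks from `0` on `ℤ²` in the closed upper half-plane (a walk is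
continued by its last point). -/
def HalfWalks (n : ℕ) : Set (ℕ → ℂ) :=
  {γ | γ 0 = 0 ∧ (∀ i, γ i ∈ Z2 ∧ 0 ≤ (γ i).im) ∧ (∀ i < n, ‖γ (i + 1) - γ i‖ = 1) ∧
    (∀ i ≤ n, ∀ j ≤ n, γ i = γ j → i = j) ∧ ∀ i, n ≤ i → γ i = γ n}

/-- `μ` is the infinite half-plane self-avoiding walk: the weak limit of the uniform measures on the
`n`-step walks. -/
def IsHalfPlaneSAW (μ : Measure (ℕ → ℂ)) : Prop :=
  IsProbabilityMeasure μ ∧ ∀ F : BoundedContinuousFunction (ℕ → ℂ) ℝ,
    Tendsto (fun n => (∑ᶠ γ ∈ HalfWalks n, F γ) / ((HalfWalks n).ncard : ℝ)) atTop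
      (𝓝 (∫ γ, F γ ∂μ))

/-- the number of points at height at most `k` of the `n`-step walk `γ` -/
noncomputable def visits (k n : ℕ) (γ : ℕ → ℂ) : ℕ := {i : ℕ | i ≤ n ∧ (γ i).im ≤ k}.ncard

open Pool.Agent.L0h89.BV

open scoped Classical in
theorem count_eq (k n : ℕ) (t : ℝ) : {γ ∈ HalfWalks n | t ≤ visits k n γ}.ncard =
    ((K nbZ 0 n).filter (fun w => t ≤ low (k : ℤ) w)).card := by
  have h1 : {γ ∈ HalfWalks n | t ≤ visits k n γ} =
      HW n ∩ {γ | t ≤ visits k n γ} := rfl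
  rw [h1, HW_count]
  congr 1
  ext w
  rw [Finset.mem_filter, Finset.mem_filter]
  refine and_congr_right fun hw => ?_
  rw [mem_K] at hw
  show t ≤ visits k n (T w) ↔ _
  unfold visits
  rw [visits_eq hw k]

/-- **Theorem.** Let `V` be the number of points at height at most `k` (for `k = 0`: of visits to the
boundary) of the uniform `n`-step self-avoiding walk in the closed upper half-plane of `ℤ²`.
(1) `V ≥ 10240 ^ (k + 1) * (1 + x)` has probability at most `exp (- x)`, for all `n`, `k`, `x ≥ 0`.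
(2) If every visit to the boundary has the weight `e^β`, with `e^β ≤ 257 / 256`, then the partition
function is between two positive multiples (not depending on `n`) of the number of walks.
(3) The infinite half-plane walk has at least `10240 ^ (k + 1) * (1 + x)` points at height at most
`k` with probability at most `exp (- x)`. -/
theorem result :
    (∀ k n : ℕ, ∀ x : ℝ, 0 ≤ x →
      ({γ ∈ HalfWalks n | (10240 : ℝ) ^ (k + 1) * (1 + x) ≤ visits k n γ}.ncard : ℝ) ≤
        Real.exp (-x) * (HalfWalks n).ncard) ∧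
    (∀ β : ℝ, Real.exp β ≤ 257 / 256 → ∀ n : ℕ,
      1 / 2 * Real.exp (20480 * min β 0) * (HalfWalks n).ncard ≤
        ∑ᶠ γ ∈ HalfWalks n, Real.exp (β * visits 0 n γ) ∧
      ∑ᶠ γ ∈ HalfWalks n, Real.exp (β * visits 0 n γ) ≤ 16 * (HalfWalks n).ncard) ∧
    ∃ μ : Measure (ℕ → ℂ), IsHalfPlaneSAW μ ∧ ∀ k : ℕ, ∀ x : ℝ, 0 ≤ x →
      μ {γ | ((⌈(10240 : ℝ) ^ (k + 1) * (1 + x)⌉₊ : ℕ) : ℕ∞) ≤
        Set.encard {i : ℕ | (γ i).im ≤ k}} ≤ ENNReal.ofReal (Real.exp (-x)) := by
  classical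
  have hcard : ∀ n, (HalfWalks n).ncard = (K nbZ 0 n).card := HW_ncard
  have hC : (160 : ℝ) * (((2 : ℕ) : ℝ) + 2) ^ 3 = 10240 := by norm_num
  have h1 : ∀ k n : ℕ, ∀ x : ℝ, 0 ≤ x →
      (((K nbZ 0 n).filter (fun w => (10240 : ℝ) ^ (k + 1) * (1 + x) ≤ low (k : ℤ) w)).card : ℝ) ≤
        Real.exp (-x) * (K nbZ 0 n).card := by
    intro k n x hx
    have := tail nbZ_card 0 k n hx
    rw [hC] at this
    exact this
  refine ⟨fun k n x hx => ?_, fun β hβ n => ?_, ?_⟩
  · rw [count_eq, hcard]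
    exact h1 k n x hx
  · have hsum : ∑ᶠ γ ∈ HalfWalks n, Real.exp (β * visits 0 n γ) =
        ∑ w ∈ K nbZ 0 n, Real.exp (β * low ((0 : ℕ) : ℤ) w) := by
      refine (HW_sum n _).trans (Finset.sum_congr rfl fun w hw => ?_)
      rw [mem_K] at hw
      unfold visits
      rw [visits_eq hw 0]
    rw [hsum, hcard]
    constructor
    · obtain ⟨S, hS, h2⟩ : ∃ S : Finset (List (ℤ × ℤ)), (∀ w, w ∈ S ↔ w ∈ K nbZ 0 n ∧
          (10240 : ℝ) ^ (0 + 1) * (1 + 1) ≤ low ((0 : ℕ) : ℤ) w) ∧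
          (S.card : ℝ) ≤ Real.exp (-1) * (K nbZ 0 n).card :=
        ⟨_, fun w => Finset.mem_filter, h1 0 n 1 zero_le_one⟩
      rw [zero_add, pow_one] at hS
      have he : Real.exp (-1) ≤ 1 / 2 := by
        rw [Real.exp_neg, inv_eq_one_div]
        apply one_div_le_one_div_of_le (by norm_num)
        have := Real.add_one_le_exp (1 : ℝ)
        linarith
      have hKc : (0 : ℝ) ≤ (K nbZ 0 n).card := Nat.cast_nonneg _
      have hSK : S ⊆ K nbZ 0 n := fun w hw => ((hS w).1 hw).1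
      have hmem : ∀ w ∈ K nbZ 0 n \ S, (low ((0 : ℕ) : ℤ) w : ℝ) ≤ 20480 := by
        intro w hw
        rw [Finset.mem_sdiff, hS] at hw
        by_contra hc
        exact hw.2 ⟨hw.1, by linarith [not_le.1 hc]⟩
      have h4 : ((K nbZ 0 n \ S).card : ℝ) = (K nbZ 0 n).card - S.card := by
        have h3 := Finset.card_sdiff_add_card_eq_card hSK
        rw [eq_sub_iff_add_eq]
        exact_mod_cast h3
      have h2' := h2.trans (mul_le_mul_of_nonneg_right he hKc)
      have h5 : 1 / 2 * ((K nbZ 0 n).card : ℝ) ≤ (K nbZ 0 n \ S).card := by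
        rw [h4]
        linarith
      calc 1 / 2 * Real.exp (20480 * min β 0) * ((K nbZ 0 n).card : ℝ)
          = Real.exp (20480 * min β 0) * (1 / 2 * (K nbZ 0 n).card) := by ring
        _ ≤ Real.exp (20480 * min β 0) * (K nbZ 0 n \ S).card :=
            mul_le_mul_of_nonneg_left h5 (Real.exp_pos _).le
        _ = ∑ w ∈ K nbZ 0 n \ S, Real.exp (20480 * min β 0) := by
            rw [Finset.sum_const, nsmul_eq_mul, mul_comm]
        _ ≤ ∑ w ∈ K nbZ 0 n \ S, Real.exp (β * low ((0 : ℕ) : ℤ) w) := by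
            refine Finset.sum_le_sum fun w hw => ?_
            have h6 := hmem w hw
            apply Real.exp_le_exp.2
            have h7 : (0 : ℝ) ≤ low ((0 : ℕ) : ℤ) w := Nat.cast_nonneg _
            rcases le_total β 0 with h | h
            · rw [min_eq_left h]
              nlinarith
            · rw [min_eq_right h]
              nlinarith
        _ ≤ _ := Finset.sum_le_sum_of_subset_of_nonneg Finset.sdiff_subset
            fun w _ _ => (Real.exp_pos _).le
    · have h2 := low_mom nbZ_card (0 : ℤ) 0 n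
      have e1 : (1 : ℝ) + eps 2 0 = 257 / 256 := by
        unfold eps
        norm_num
      have e2 : (2 : ℝ) ^ 0 * (4 * (((2 : ℕ) : ℝ) + 2)) = 16 := by norm_num
      rw [e1, e2] at h2
      refine le_trans (Finset.sum_le_sum fun w _ => ?_) h2
      rw [mul_comm, Real.exp_nat_mul]
      exact pow_le_pow_left₀ (Real.exp_pos _).le hβ _
  · obtain ⟨μ, hμ, -, -, hlim⟩ := Pool.Agent.N941.SP.concl_sq
    refine ⟨μ, ⟨hμ, hlim⟩, fun k x hx => ?_⟩
    refine lim_le (μ := μ) ⟨hμ, hlim⟩ k _ fun n => ?_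
    refine le_trans ?_ (h1 k n x hx)
    have : (K nbZ 0 n).filter (fun w => ⌈(10240 : ℝ) ^ (k + 1) * (1 + x)⌉₊ ≤ low (k : ℤ) w) ⊆
        (K nbZ 0 n).filter (fun w => (10240 : ℝ) ^ (k + 1) * (1 + x) ≤ low (k : ℤ) w) := by
      intro w hw
      rw [Finset.mem_filter] at hw ⊢
      exact ⟨hw.1, Nat.ceil_le.1 hw.2⟩
    exact_mod_cast Finset.card_le_card this

end Pool.Agent.Results.MP_df1d0b_pr.BoundaryVisitsSquare
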