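import Pool.Agent.Y981.CT
import Pool.Agent.TH546.HP.Wid

/-!
# The planar half-plane self-avoiding walk touches its own past only polylogarithmically often
-/

set_option autoImplicit false

namespace Pool.Agent.Results.MP_df1d0b_pr.FewContacts

/-- `ω` is an `n`-step self-avoiding walk on `ℤ²` which starts at the origin and stays in the closed
upper half-plane. -/
def IsHalf (n : ℕ) (ω : Fin (n + 1) → ℤ × ℤ) : Prop :=
  ω 0 = (0, 0) ∧
  (∀ i : Fin n, |(ω i.succ).1 - (ω i.castSucc).1| + |(ω i.succ).2 - (ω i.castSucc).2| = 1) ∧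
  Function.Injective ω ∧ ∀ i, 0 ≤ (ω i).2

/-- the number of the `n`-step half-plane walks -/
noncomputable def h (n : ℕ) : ℕ := Nat.card {ω : Fin (n + 1) → ℤ × ℤ // IsHalf n ω}

/-- the points `u` and `v` are at Euclidean distance one -/
def Touch (u v : ℤ × ℤ) : Prop := |v.1 - u.1| + |v.2 - u.2| = 1

/-- the number of pairs of times `i < t < j` with `|ω(i) - ω(j)| = 1` -/
noncomputable def across (n t : ℕ) (ω : Fin (n + 1) → ℤ × ℤ) : ℕ :=
  Nat.card {q : Fin (n + 1) × Fin (n + 1) // q.1.1 < t ∧ t < q.2.1 ∧ Touch (ω q.1) (ω q.2)}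

/-- the number of pairs of times `i, j` with `j - i > m` and `|ω(i) - ω(j)| = 1` -/
noncomputable def apart (n m : ℕ) (ω : Fin (n + 1) → ℤ × ℤ) : ℕ :=
  Nat.card {q : Fin (n + 1) × Fin (n + 1) // q.1.1 + m < q.2.1 ∧ Touch (ω q.1) (ω q.2)}

theorem across_eq (n t : ℕ) (ω : Fin (n + 1) → ℤ × ℤ) : across n t ω = W840.CT.TT n t ω := by
  classical
  unfold across W840.CT.TT
  rw [Nat.card_eq_fintype_card, Fintype.card_subtype]
  congr 1

theorem apart_eq (n m : ℕ) (ω : Fin (n + 1) → ℤ × ℤ) : apart n m ω = W840.CT.FF n m ω := by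
  classical
  unfold apart W840.CT.FF
  rw [Nat.card_eq_fintype_card, Fintype.card_subtype]
  congr 1

/-- **Few contacts between distant parts of the half-plane walk.**  There is `K` such that for all
`n ≥ 2` and `x ≥ 0` the uniform `n`-step self-avoiding walk in the closed upper half-plane has, with
probability at least `1 - exp (-x)`, for every `t` at most `K ((log n)^2 + x)` contacts between its
part before `t` and its part after `t`, and for every `m ≥ 1` at most `K (n / m) ((log n)^2 + x)`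
contacts between points more than `m` steps apart. -/
theorem result : ∃ K : ℝ, 0 < K ∧ ∀ n : ℕ, 2 ≤ n → ∀ x : ℝ, 0 ≤ x →
    (Nat.card {ω : Fin (n + 1) → ℤ × ℤ // IsHalf n ω ∧
      ¬ ((∀ t : ℕ, (across n t ω : ℝ) ≤ K * (Real.log n ^ 2 + x)) ∧
        (∀ m : ℕ, 1 ≤ m → (apart n m ω : ℝ) ≤ K * (n / m) * (Real.log n ^ 2 + x)))} : ℝ) ≤
      Real.exp (-x) * h n := by
  obtain ⟨K, hK, hall⟩ := Y981.CT.tail_all
  obtain ⟨K0, hK0, hB⟩ := TH546.HP.big_HW
  refine ⟨K * (1 + K0), by positivity, fun n hn x hx => ?_⟩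
  obtain ⟨L, hL⟩ : ∃ L, L = Real.log n ^ 2 := ⟨_, rfl⟩
  have hL0 : 0 ≤ L := by rw [hL]; positivity
  rw [← hL]
  have hh : h n = (TH546.HP.HW n).card := by
    unfold h
    have h1 : Nat.card {ω : Fin (n + 1) → ℤ × ℤ // ω ∈ TH546.HP.HW n} =
        (TH546.HP.HW n).card := by
      rw [Nat.card_eq_fintype_card, Fintype.card_coe]
    rw [← h1]
    refine Nat.card_congr (Equiv.subtypeEquiv (Equiv.refl _) fun ω => ?_)
    rw [Equiv.refl_apply, TH546.HP.mem_HW]
    constructor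
    · rintro ⟨a, b, c, d⟩
      exact ⟨⟨a, b, c⟩, d⟩
    · rintro ⟨⟨a, b, c⟩, d⟩
      exact ⟨a, b, c, d⟩
  have hlen := (hB n hn).le
  rw [← hh, ← hL] at hlen
  have h1 := hall n hn (K0 * L + x) (by positivity)
  have h2 : Nat.card {ω : Fin (n + 1) → ℤ × ℤ // IsHalf n ω ∧
      ¬ ((∀ t : ℕ, (across n t ω : ℝ) ≤ K * (1 + K0) * (L + x)) ∧
        (∀ m : ℕ, 1 ≤ m → (apart n m ω : ℝ) ≤ K * (1 + K0) * (n / m) * (L + x)))} ≤
      ({ω | W840.CT.SW n ω ∧ ∃ t, K * (Real.log n ^ 2 + (K0 * L + x)) < W840.CT.TT n t ω} :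
        Set (Fin (n + 1) → ℤ × ℤ)).ncard := by
    refine (le_of_eq (Nat.card_coe_set_eq _)).trans (Set.ncard_le_ncard ?_
      ((W840.CT.SW_finite n).subset (fun ω hω => hω.1)))
    rintro ω ⟨⟨a, b, c, d⟩, hb⟩
    refine ⟨⟨a, b, c⟩, ?_⟩
    by_contra hcon
    push Not at hcon
    rw [← hL] at hcon
    have hKL : K * (L + (K0 * L + x)) ≤ K * (1 + K0) * (L + x) := by
      have : 0 ≤ K * (K0 * x) := by positivity
      nlinarith
    apply hb
    refine ⟨fun t => ?_, fun m hm => ?_⟩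
    · rw [across_eq]
      exact (hcon t).trans hKL
    · rw [apart_eq]
      have h3 := W840.CT.FF_le n m hm ω (fun t => (hcon t).trans hKL)
      calc (W840.CT.FF n m ω : ℝ) ≤ n / m * (K * (1 + K0) * (L + x)) := h3
        _ = K * (1 + K0) * (n / m) * (L + x) := by ring
  have h3 : (Nat.card {ω : Fin (n + 1) → ℤ × ℤ // IsHalf n ω ∧
      ¬ ((∀ t : ℕ, (across n t ω : ℝ) ≤ K * (1 + K0) * (L + x)) ∧
        (∀ m : ℕ, 1 ≤ m → (apart n m ω : ℝ) ≤ K * (1 + K0) * (n / m) * (L + x)))} : ℝ) ≤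
      Real.exp (-(K0 * L + x)) * W840.CT.cn n := by
    refine le_trans ?_ h1
    exact_mod_cast h2
  refine h3.trans ?_
  calc Real.exp (-(K0 * L + x)) * (W840.CT.cn n : ℝ) ≤
      Real.exp (-(K0 * L + x)) * (Real.exp (K0 * L) * h n) := by gcongr
    _ = Real.exp (-x) * h n := by
        rw [← mul_assoc, ← Real.exp_add]
        congr 2
        ring

end Pool.Agent.Results.MP_df1d0b_pr.FewContacts
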