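import Pool.Agent.L0h89.BVT.Hgt
import Pool.Agent.R965.HP.WinHex
import Pool.Agent.R965.HP.WinHalf

/-!
# Half-plane self-avoiding walks: the law of the point at a given time
-/

set_option autoImplicit false

namespace Pool.Agent.Results.MP_df1d0b_pr.TimeMarginals

open Filter Topology

/-- the three grids -/
inductive Grid
  | square
  | triangular
  | hexagonal

/-- Adjacency of the grids, in coordinates on `ℤ × ℤ` (brick wall for the hexagonal grid). -/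
def Grid.Adj : Grid → ℤ × ℤ → ℤ × ℤ → Prop
  | .square, p, q => |p.1 - q.1| + |p.2 - q.2| = 1
  | .triangular, p, q =>
    q - p ∈ ({(1, 0), (-1, 0), (0, 1), (0, -1), (1, -1), (-1, 1)} : Set (ℤ × ℤ))
  | .hexagonal, p, q => q - p = (1, 0) ∨ q - p = (-1, 0) ∨ (q - p = (0, 1) ∧ Even (p.1 + p.2)) ∨
    (q - p = (0, -1) ∧ Even (q.1 + q.2))

/-- The points of the plane: with these points the edges have length one. -/
noncomputable def Grid.pt : Grid → ℤ × ℤ → ℂ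
  | .square, p => ⟨(p.2 : ℝ), (p.1 : ℝ)⟩
  | .triangular, p => ⟨((p.1 : ℝ) - (p.2 : ℝ)) / 2, √3 / 2 * ((p.1 : ℝ) + (p.2 : ℝ))⟩
  | .hexagonal, p => ⟨(3 * (p.2 : ℝ) - (((p.1 + p.2) % 2 : ℤ) : ℝ)) / 2, √3 / 2 * (p.1 : ℝ)⟩

/-- the `n`-step self-avoiding walks from the origin in the closed upper half-plane; a walk is
continued by its last point -/
def halfWalks (G : Grid) (n : ℕ) : Set (ℕ → ℤ × ℤ) :=
  {γ | γ 0 = 0 ∧ (∀ i < n, G.Adj (γ i) (γ (i + 1))) ∧ (∀ i ≤ n, ∀ j ≤ n, γ i = γ j → i = j) ∧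
    (∀ i, 0 ≤ (G.pt (γ i)).im) ∧ ∀ i, n ≤ i → γ i = γ n}

/-- the probability of the event `E` for the uniform `n`-step half-plane walk -/
noncomputable def prob (G : Grid) (n : ℕ) (E : (ℕ → ℤ × ℤ) → Prop) : ℝ :=
  ({γ ∈ halfWalks G n | E γ}.ncard : ℝ) / ((halfWalks G n).ncard : ℝ)

/-- the rate `n^(-1/6) (log n)^(1/2) + i^(-1/4) + r^(-1/4)` -/
noncomputable def rate (n i r : ℕ) : ℝ :=
  (n : ℝ) ^ (-(1 / 6) : ℝ) * √(Real.log n) + (i : ℝ) ^ (-(1 / 4) : ℝ) + (r : ℝ) ^ (-(1 / 4) : ℝ)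

open Pool.Agent.R965.HP TH966.AK Pool.Agent.L0h89.BVT

open scoped Classical in
theorem prob_eq (G : Grid) {A : ℤ × ℤ → ℤ × ℤ → Prop} (e : G.Adj = A) {D : ℤ × ℤ → Prop}
    (hD : (fun p => 0 ≤ (G.pt p).im) = D) (Z : Rule A) (h0 : D 0) (n i : ℕ) (S : Set (ℤ × ℤ)) :
    prob G n (fun γ => γ i ∈ S) = mean A D n (fun γ => if γ i ∈ S then (1 : ℝ) else 0) := by
  subst e hD
  have hfin := Wn_fin (D := fun p => 0 ≤ (G.pt p).im) Z h0 n
  have h1 : halfWalks G n = Wn G.Adj (fun p => 0 ≤ (G.pt p).im) n := rfl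
  unfold prob mean
  rw [h1]
  congr 1
  rw [finsum_mem_eq_finite_toFinset_sum _ hfin, Finset.sum_boole]
  congr 1
  rw [← Set.ncard_coe_finset]
  congr 1
  ext γ
  rw [Finset.coe_filter]
  simp only [Set.mem_ofPred_eq, Set.Finite.mem_toFinset]

theorem half_square : (fun p => 0 ≤ (Grid.square.pt p).im) = Hc := by
  funext p
  show ((0 : ℝ) ≤ (p.1 : ℝ)) = (0 ≤ p.1)
  rw [eq_iff_iff]
  exact ⟨fun h => by exact_mod_cast h, fun h => by exact_mod_cast h⟩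

theorem half_triangular : (fun p => 0 ≤ (Grid.triangular.pt p).im) = fun p => 0 ≤ p.1 + p.2 := by
  funext p
  show ((0 : ℝ) ≤ √3 / 2 * ((p.1 : ℝ) + (p.2 : ℝ))) = _
  have h3 : (0 : ℝ) < √3 / 2 := by positivity
  rw [eq_iff_iff, mul_nonneg_iff_of_pos_left h3]
  exact ⟨fun h => by exact_mod_cast h, fun h => by exact_mod_cast h⟩

theorem half_hexagonal : (fun p => 0 ≤ (Grid.hexagonal.pt p).im) = fun p => 0 ≤ p.1 := by
  funext p
  show ((0 : ℝ) ≤ √3 / 2 * (p.1 : ℝ)) = _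
  have h3 : (0 : ℝ) < √3 / 2 := by positivity
  rw [eq_iff_iff, mul_nonneg_iff_of_pos_left h3]
  exact ⟨fun h => by exact_mod_cast h, fun h => by exact_mod_cast h⟩

theorem rate_eq (n i r : ℕ) : rate n i r = Pool.Agent.L0h89.BVT.rate n i r := rfl

theorem rate_nonneg (n i r : ℕ) : 0 ≤ rate n i r := by
  unfold rate
  positivity

/-- the first part for one grid -/
theorem point_of (G : Grid) {A : ℤ × ℤ → ℤ × ℤ → Prop} (e : G.Adj = A) {D : ℤ × ℤ → Prop}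
    (hD : (fun p => 0 ≤ (G.pt p).im) = D) (Z : Rule A) (hs1 : 1 ≤ Z.s) (hs : Z.s ≤ 2) {μ : ℝ}
    (H : ∃ K K1 C1 : ℝ, WH Z D μ K K1 C1 2) : ∃ C : ℝ, 1 ≤ C ∧
      ∀ n : ℕ, 2 ≤ n → ∀ i r : ℕ, n = i + r → C * Real.log n ^ 2 ≤ i → C * Real.log n ^ 2 ≤ r →
        ∀ v : ℤ × ℤ, prob G n (fun γ => γ i = v) ≤ C * rate n i r := by
  classical
  obtain ⟨K, K1, C1, H⟩ := H
  obtain ⟨C, hC, h⟩ := spread H hs
  refine ⟨C, hC, fun n hn i r hir hi hr v => ?_⟩
  obtain ⟨S, hS⟩ : ∃ S : Set (ℤ × ℤ), S = {v} := ⟨_, rfl⟩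
  have hmem : ∀ p, p ∈ S ↔ p = v := fun p => by rw [hS, Set.mem_singleton_iff]
  have h1 := h n hn i r hir hi hr S 1 le_rfl
    (fun J hJ => cnt_point Z H.h0 hs1 v n i J hJ S fun p hp => (hmem p).1 hp)
  rw [mul_one] at h1
  have h2 := prob_eq G e hD Z H.h0 n i S
  rw [← h2] at h1
  have h3 : prob G n (fun γ => γ i = v) = prob G n (fun γ => γ i ∈ S) := by
    congr 1
    funext γ
    exact propext (hmem _).symm
  rw [h3]
  exact h1

theorem prob_le_one (G : Grid) {A : ℤ × ℤ → ℤ × ℤ → Prop} (e : G.Adj = A) {D : ℤ × ℤ → Prop}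
    (hD : (fun p => 0 ≤ (G.pt p).im) = D) (Z : Rule A) (h0 : D 0) (n : ℕ)
    (E : (ℕ → ℤ × ℤ) → Prop) : prob G n E ≤ 1 := by
  subst e hD
  have hfin : (halfWalks G n).Finite := Wn_fin (D := fun p => 0 ≤ (G.pt p).im) Z h0 n
  unfold prob
  apply div_le_one_of_le₀ _ (Nat.cast_nonneg _)
  have h1 : {γ ∈ halfWalks G n | E γ}.ncard ≤ (halfWalks G n).ncard :=
    Set.ncard_le_ncard (fun γ hγ => hγ.1) hfin
  exact_mod_cast h1

theorem prob_mono (G : Grid) {A : ℤ × ℤ → ℤ × ℤ → Prop} (e : G.Adj = A) {D : ℤ × ℤ → Prop}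
    (hD : (fun p => 0 ≤ (G.pt p).im) = D) (Z : Rule A) (h0 : D 0) (n : ℕ)
    {E E' : (ℕ → ℤ × ℤ) → Prop} (h : ∀ γ, E γ → E' γ) : prob G n E ≤ prob G n E' := by
  subst e hD
  have hfin : (halfWalks G n).Finite := Wn_fin (D := fun p => 0 ≤ (G.pt p).im) Z h0 n
  unfold prob
  apply div_le_div_of_nonneg_right _ (Nat.cast_nonneg _)
  have h1 : {γ ∈ halfWalks G n | E γ}.ncard ≤ {γ ∈ halfWalks G n | E' γ}.ncard :=
    Set.ncard_le_ncard (fun γ hγ => ⟨hγ.1, h γ hγ.2⟩) (hfin.subset fun γ hγ => hγ.1)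
  exact_mod_cast h1

theorem rate_le {a : ℝ} {n i r : ℕ} (hn : 2 ≤ n) (hi : (n : ℝ) ^ a ≤ i)
    (hr : (n : ℝ) ^ a ≤ r) : rate n i r ≤ 5 * (n : ℝ) ^ (-(min (1 / 12) (a / 4))) := by
  have hn1 : (1 : ℝ) ≤ n := by exact_mod_cast (by omega : 1 ≤ n)
  have hn0 : (0 : ℝ) < n := by linarith
  obtain ⟨b, hb⟩ : ∃ b, b = min (1 / 12) (a / 4) := ⟨_, rfl⟩
  rw [← hb]
  have hb1 : b ≤ 1 / 12 := by rw [hb]; exact min_le_left _ _
  have hb2 : b ≤ a / 4 := by rw [hb]; exact min_le_right _ _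
  have h1 : (n : ℝ) ^ (-(1 / 6) : ℝ) * √(Real.log n) ≤ 3 * (n : ℝ) ^ (-b) := by
    have h2 : Real.log n ≤ (n : ℝ) ^ (1 / 6 : ℝ) / (1 / 6) :=
      Real.log_le_rpow_div hn0.le (by norm_num)
    have h3 : √(Real.log n) ≤ 3 * (n : ℝ) ^ (1 / 12 : ℝ) := by
      rw [Real.sqrt_le_left (by positivity)]
      have h4 : (3 * (n : ℝ) ^ (1 / 12 : ℝ)) ^ 2 = 9 * (n : ℝ) ^ (1 / 6 : ℝ) := by
        rw [mul_pow, ← Real.rpow_natCast ((n : ℝ) ^ (1 / 12 : ℝ)) 2, ← Real.rpow_mul hn0.le]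
        norm_num
      rw [h4]
      have : 0 ≤ (n : ℝ) ^ (1 / 6 : ℝ) := by positivity
      linarith
    calc (n : ℝ) ^ (-(1 / 6) : ℝ) * √(Real.log n) ≤
        (n : ℝ) ^ (-(1 / 6) : ℝ) * (3 * (n : ℝ) ^ (1 / 12 : ℝ)) := by gcongr
      _ = 3 * ((n : ℝ) ^ (-(1 / 6) : ℝ) * (n : ℝ) ^ (1 / 12 : ℝ)) := by ring
      _ = 3 * (n : ℝ) ^ (-(1 / 12) : ℝ) := by
          rw [← Real.rpow_add hn0]
          norm_num
      _ ≤ _ := by
          have := Real.rpow_le_rpow_of_exponent_le hn1 (show -(1 / 12 : ℝ) ≤ -b by linarith)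
          linarith
  have h5 : ∀ j : ℕ, (n : ℝ) ^ a ≤ j → (j : ℝ) ^ (-(1 / 4) : ℝ) ≤ (n : ℝ) ^ (-b) := by
    intro j hj
    have hpos : 0 < (n : ℝ) ^ a := by positivity
    calc (j : ℝ) ^ (-(1 / 4) : ℝ) ≤ ((n : ℝ) ^ a) ^ (-(1 / 4) : ℝ) :=
          Real.rpow_le_rpow_of_nonpos hpos hj (by norm_num)
      _ = (n : ℝ) ^ (-(a / 4)) := by
          rw [← Real.rpow_mul hn0.le]
          congr 1
          ring
      _ ≤ _ := Real.rpow_le_rpow_of_exponent_le hn1 (by linarith)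
  have h6 := h5 i hi
  have h7 := h5 r hr
  unfold rate
  linarith

/-- from the second to the third part -/
theorem high_of {C : ℝ} (hC : 1 ≤ C) (h : ∀ n : ℕ, 2 ≤ n → ∀ i r : ℕ, n = i + r →
      C * Real.log n ^ 2 ≤ i → C * Real.log n ^ 2 ≤ r →
        ∀ k : ℕ, prob .square n (fun γ => (Grid.square.pt (γ i)).im ≤ k) ≤
          C * 1152 ^ k * rate n i r) (a : ℝ) (ha : 0 < a) :
    ∃ c C' : ℝ, 0 < c ∧ 0 < C' ∧ ∀ n : ℕ, 2 ≤ n → ∀ i r : ℕ, n = i + r →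
      (n : ℝ) ^ a ≤ i → (n : ℝ) ^ a ≤ r →
        prob .square n (fun γ => (Grid.square.pt (γ i)).im ≤ c * Real.log n) ≤
          C' * (n : ℝ) ^ (-c) := by
  have esq : Grid.square.Adj = Pool.Agent.R965.HP.Sq.A := rfl
  have hH0 : Hc 0 := show (0 : ℤ) ≤ 0 from le_rfl
  obtain ⟨b, hb⟩ : ∃ b, b = min (1 / 12) (a / 4) := ⟨_, rfl⟩
  have hb0 : 0 < b := by rw [hb]; exact lt_min (by norm_num) (by positivity)
  have hev : ∀ᶠ n : ℕ in atTop, C * Real.log n ^ 2 ≤ (n : ℝ) ^ a := by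
    have h1 := (isLittleO_log_rpow_rpow_atTop (2 : ℝ) ha).bound
      (show (0 : ℝ) < 1 / C by positivity)
    have h2 := tendsto_natCast_atTop_atTop (R := ℝ).eventually h1
    filter_upwards [h2, eventually_ge_atTop 1] with n hn hn1
    have hn1' : (1 : ℝ) ≤ n := by exact_mod_cast hn1
    have hl : 0 ≤ Real.log (n : ℝ) := Real.log_nonneg hn1'
    rw [Real.norm_of_nonneg (by positivity), Real.norm_of_nonneg (by positivity)] at hn
    have h3 : Real.log (n : ℝ) ^ (2 : ℝ) = Real.log n ^ 2 := by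
      exact_mod_cast Real.rpow_natCast (Real.log (n : ℝ)) 2
    rw [h3, one_div, inv_mul_eq_div, le_div_iff₀ (by linarith)] at hn
    linarith
  obtain ⟨n0, hn0⟩ := eventually_atTop.1 hev
  obtain ⟨c, hc⟩ : ∃ c, c = b / 10 := ⟨_, rfl⟩
  have hc0 : 0 < c := by rw [hc]; positivity
  have hN : (1 : ℝ) ≤ ((max n0 1 : ℕ) : ℝ) := by exact_mod_cast le_max_right _ _
  refine ⟨c, 5760 * C + ((max n0 1 : ℕ) : ℝ) ^ c, hc0, by positivity,
    fun n hn i r hir hi hr => ?_⟩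
  have hn1 : (1 : ℝ) ≤ n := by exact_mod_cast (by omega : 1 ≤ n)
  have hnp : (0 : ℝ) < n := by linarith
  have hpc : 0 < (n : ℝ) ^ (-c) := by positivity
  rcases Nat.lt_or_ge n n0 with h1 | h1
  · refine (prob_le_one .square esq half_square Pool.Agent.R965.HP.Sq.rule hH0 n _).trans ?_
    have h2 : (1 : ℝ) ≤ ((max n0 1 : ℕ) : ℝ) ^ c * (n : ℝ) ^ (-c) := by
      rw [Real.rpow_neg hnp.le, ← div_eq_mul_inv, le_div_iff₀ (by positivity), one_mul]
      apply Real.rpow_le_rpow hnp.le _ hc0.le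
      exact_mod_cast (le_trans h1.le (le_max_left _ _))
    have h3 : 0 ≤ 5760 * C * (n : ℝ) ^ (-c) := by positivity
    linarith
  · have h2 := hn0 n h1
    have hl : 0 ≤ Real.log (n : ℝ) := Real.log_nonneg hn1
    obtain ⟨k, hk⟩ : ∃ k : ℕ, k = ⌈c * Real.log n⌉₊ := ⟨_, rfl⟩
    have hk1 : c * Real.log n ≤ k := by rw [hk]; exact Nat.le_ceil _
    have hk2 : (k : ℝ) ≤ c * Real.log n + 1 := by
      rw [hk]
      exact (Nat.ceil_lt_add_one (by positivity)).le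
    have h3 := h n hn i r hir (h2.trans hi) (h2.trans hr) k
    have h4 := prob_mono .square esq half_square Pool.Agent.R965.HP.Sq.rule hH0 n
      (E := fun γ => (Grid.square.pt (γ i)).im ≤ c * Real.log n)
      (E' := fun γ => (Grid.square.pt (γ i)).im ≤ k) (fun γ hγ => hγ.trans hk1)
    refine h4.trans (h3.trans ?_)
    have h5 : (1152 : ℝ) ^ k ≤ 1152 * (n : ℝ) ^ (8 * c) := by
      have e1 : (1152 : ℝ) ^ k = Real.exp (k * Real.log 1152) := by
        rw [Real.exp_nat_mul, Real.exp_log (by norm_num)]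
      have e2 : 1152 * (n : ℝ) ^ (8 * c) = Real.exp (Real.log 1152 + Real.log n * (8 * c)) := by
        rw [Real.exp_add, Real.exp_log (by norm_num), Real.rpow_def_of_pos hnp]
      rw [e1, e2]
      apply Real.exp_le_exp.2
      have e3 : Real.log 1152 ≤ 8 := by
        have h6 : Real.log 1152 ≤ Real.log (2 ^ 11) := Real.log_le_log (by norm_num) (by norm_num)
        rw [Real.log_pow] at h6
        have := Real.log_two_lt_d9
        push_cast at h6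
        linarith
      have e4 : 0 ≤ Real.log 1152 := Real.log_nonneg (by norm_num)
      have e5 : (k : ℝ) * Real.log 1152 ≤ (c * Real.log n + 1) * Real.log 1152 :=
        mul_le_mul_of_nonneg_right hk2 e4
      have e6 : c * Real.log n * Real.log 1152 ≤ c * Real.log n * 8 :=
        mul_le_mul_of_nonneg_left e3 (by positivity)
      linarith
    have h6 := rate_le hn hi hr
    rw [← hb] at h6
    have h7 : (n : ℝ) ^ (8 * c) * (n : ℝ) ^ (-b) ≤ (n : ℝ) ^ (-c) := by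
      rw [← Real.rpow_add hnp]
      apply Real.rpow_le_rpow_of_exponent_le hn1
      rw [hc]
      linarith
    calc C * 1152 ^ k * rate n i r ≤ C * (1152 * (n : ℝ) ^ (8 * c)) * (5 * (n : ℝ) ^ (-b)) := by
          apply mul_le_mul _ h6 (rate_nonneg _ _ _) (by positivity)
          exact mul_le_mul_of_nonneg_left h5 (by linarith)
      _ = 5760 * C * ((n : ℝ) ^ (8 * c) * (n : ℝ) ^ (-b)) := by ring
      _ ≤ 5760 * C * (n : ℝ) ^ (-c) := mul_le_mul_of_nonneg_left h7 (by positivity)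
      _ ≤ _ := by
          have : 0 ≤ ((max n0 1 : ℕ) : ℝ) ^ c * (n : ℝ) ^ (-c) := by positivity
          linarith

/-- **Theorem.** For the uniform self-avoiding walk `γ` with `n` steps in the closed upper half-plane
and the time `i`, with `r = n - i` steps after it:
(1) for each of the three grids there is `C` such that, if `i` and `r` are at least `C (log n)^2`,
every vertex `v` satisfies `P(γ i = v) ≤ C (n^(-1/6) (log n)^(1/2) + i^(-1/4) + r^(-1/4))`;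
(2) for the square grid there is `C` such that, if `i` and `r` are at least `C (log n)^2`, the point
`γ i` has height at most `k` with probability at most
`C 1152^k (n^(-1/6) (log n)^(1/2) + i^(-1/4) + r^(-1/4))`, for all `k`;
(3) for the square grid and every `a > 0` there are `c, C > 0` such that, if `i` and `r` are at least
`n^a`, the point `γ i` has height at most `c log n` with probability at most `C n^(-c)`. -/
theorem result :
    (∀ G : Grid, ∃ C : ℝ, 1 ≤ C ∧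
      ∀ n : ℕ, 2 ≤ n → ∀ i r : ℕ, n = i + r → C * Real.log n ^ 2 ≤ i → C * Real.log n ^ 2 ≤ r →
        ∀ v : ℤ × ℤ, prob G n (fun γ => γ i = v) ≤ C * rate n i r) ∧
    (∃ C : ℝ, 1 ≤ C ∧
      ∀ n : ℕ, 2 ≤ n → ∀ i r : ℕ, n = i + r → C * Real.log n ^ 2 ≤ i → C * Real.log n ^ 2 ≤ r →
        ∀ k : ℕ, prob .square n (fun γ => (Grid.square.pt (γ i)).im ≤ k) ≤
          C * 1152 ^ k * rate n i r) ∧
    ∀ a : ℝ, 0 < a → ∃ c C : ℝ, 0 < c ∧ 0 < C ∧ ∀ n : ℕ, 2 ≤ n → ∀ i r : ℕ, n = i + r →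
      (n : ℝ) ^ a ≤ i → (n : ℝ) ^ a ≤ r →
        prob .square n (fun γ => (Grid.square.pt (γ i)).im ≤ c * Real.log n) ≤
          C * (n : ℝ) ^ (-c) := by
  suffices hmain : (∀ G : Grid, ∃ C : ℝ, 1 ≤ C ∧
      ∀ n : ℕ, 2 ≤ n → ∀ i r : ℕ, n = i + r → C * Real.log n ^ 2 ≤ i → C * Real.log n ^ 2 ≤ r →
        ∀ v : ℤ × ℤ, prob G n (fun γ => γ i = v) ≤ C * rate n i r) ∧
    (∃ C : ℝ, 1 ≤ C ∧
      ∀ n : ℕ, 2 ≤ n → ∀ i r : ℕ, n = i + r → C * Real.log n ^ 2 ≤ i → C * Real.log n ^ 2 ≤ r →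
        ∀ k : ℕ, prob .square n (fun γ => (Grid.square.pt (γ i)).im ≤ k) ≤
          C * 1152 ^ k * rate n i r) by
    obtain ⟨h1, C, hC, h2⟩ := hmain
    exact ⟨h1, ⟨C, hC, h2⟩, high_of hC h2⟩
  classical
  have esq : Grid.square.Adj = Pool.Agent.R965.HP.Sq.A := rfl
  have etri : Grid.triangular.Adj = TH966.AK.Tri.A := TH966.AK.adjT_eq
  have ehex : Grid.hexagonal.Adj = TH966.AK.Hex.A := rfl
  have hsq : ∃ K K1 C1 : ℝ, WH Pool.Agent.R965.HP.Sq.rule Hc (@H982.mu H982P.sqL) K K1 C1 2 :=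
    wh_half (L := H982P.sqL) _ H982P.coord_sq _ (show (0 : ℤ) ≤ 0 from le_rfl)
      (pw_sub (L := H982P.sqL) _ (show (0 : ℤ) ≤ 0 from le_rfl) sq_poor sq_hA sq_hsub
        sq_htr) Pool.Agent.R965.HP.half_sq
  refine ⟨fun G => ?_, ?_⟩
  · cases G with
    | square =>
      exact point_of .square esq half_square Pool.Agent.R965.HP.Sq.rule
        (show 1 ≤ 2 by norm_num) (show 2 ≤ 2 by norm_num) hsq
    | triangular =>
      obtain ⟨φ, R, htri, -⟩ := Pool.Agent.R965.HP.coord_triA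
      have h00 : (0 : ℤ) ≤ 0 + 0 := by norm_num
      exact point_of .triangular etri half_triangular TH966.AK.Tri.rule
        (show 1 ≤ 1 by norm_num) (show 1 ≤ 2 by norm_num)
        (wh_half (L := H982P.triL) _ htri _ h00
          (pw_sub (L := H982P.triL) _ h00 tri_poor tri_hA tri_hsub tri_htr)
          Pool.Agent.R965.HP.half_tri)
    | hexagonal =>
      exact point_of .hexagonal ehex half_hexagonal TH966.AK.Hex.rule
        (show 1 ≤ 2 by norm_num) (show 2 ≤ 2 by norm_num) wh_hex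
  · obtain ⟨K, K1, C1, H⟩ := hsq
    obtain ⟨C, hC, h⟩ := spread H (show 2 ≤ 2 by norm_num)
    have hC4 : C ≤ 4096 * C := by linarith
    refine ⟨4096 * C, by linarith, fun n hn i r hir hi hr k => ?_⟩
    have hL : 0 ≤ Real.log (n : ℝ) ^ 2 := by positivity
    have hi' : C * Real.log n ^ 2 ≤ i := by nlinarith
    have hr' : C * Real.log n ^ 2 ≤ r := by nlinarith
    have hk1 : (1 : ℝ) ≤ 1152 ^ k := one_le_pow₀ (by norm_num)
    obtain ⟨S, hS⟩ : ∃ S : Set (ℤ × ℤ), S = {p : ℤ × ℤ | p.1 ≤ k} := ⟨_, rfl⟩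
    have hmem : ∀ p, p ∈ S ↔ p.1 ≤ (k : ℤ) := fun p => by rw [hS]; exact Iff.rfl
    have h1 := h n hn i r hir hi' hr' S (4096 * 1152 ^ k) (by linarith)
      (fun J hJ => cnt_mean k n i J hJ S fun p hp => (hmem p).1 hp)
    have h2 := prob_eq .square esq half_square Pool.Agent.R965.HP.Sq.rule
      (show (0 : ℤ) ≤ 0 from le_rfl) n i S
    rw [← h2, ← rate_eq] at h1
    have h3 : prob .square n (fun γ => (Grid.square.pt (γ i)).im ≤ k) =
        prob .square n (fun γ => γ i ∈ S) := by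
      congr 1
      funext γ
      show ((((γ i).1 : ℤ) : ℝ) ≤ (k : ℝ)) = (γ i ∈ S)
      rw [eq_iff_iff, hmem]
      exact ⟨fun h => by exact_mod_cast h, fun h => by exact_mod_cast h⟩
    rw [h3]
    refine h1.trans (le_of_eq ?_)
    ring

end Pool.Agent.Results.MP_df1d0b_pr.TimeMarginals
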